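import Pool.Agent.Lib.helper11.ETROrth

namespace Pool.Agent.Results.MP_0f8b55_lc.EDim

open Pool.Agent.Cx RealInnerProductSpace

/-- `G` is a subgraph of the unit distance graph of Euclidean `d`-space -/
def Sub (d : ℕ) {V : Type} (G : SimpleGraph V) : Prop :=
  ∃ p : V → EuclideanSpace ℝ (Fin d), Function.Injective p ∧ ∀ u v, G.Adj u v → dist (p u) (p v) = 1

lemma Sub.mono {e d : ℕ} (h : e ≤ d) {V : Type} {G : SimpleGraph V} (H : Sub e G) : Sub d G := by
  obtain ⟨p, h1, h2⟩ := H
  let b := EuclideanSpace.basisFun (Fin e) ℝ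
  let f := (b.toBasis.constr ℝ fun i => EuclideanSpace.basisFun (Fin d) ℝ (Fin.castLE h i)
    ).isometryOfOrthonormal (v := b.toBasis) (by simp) (by
      have := (EuclideanSpace.basisFun (Fin d) ℝ).orthonormal.comp _ (Fin.castLE_injective h)
      exact (funext fun i => (b.toBasis.constr_basis ℝ _ i).symm :
        EuclideanSpace.basisFun (Fin d) ℝ ∘ Fin.castLE h = _ ∘ b.toBasis) ▸ this)
  exact ⟨fun v => f (p v), f.injective.comp h1, fun u v a => by rw [f.dist_map, h2 u v a]⟩

lemma Sub.iso {d : ℕ} {V W : Type} {G : SimpleGraph V} {G' : SimpleGraph W} (e : G ≃g G')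
    (h : Sub d G') : Sub d G :=
  let ⟨p, h1, h2⟩ := h
  ⟨fun v => p (e v), h1.comp e.injective, fun _ _ a => h2 _ _ (e.map_adj_iff.2 a)⟩

section
variable {E : Type} [NormedAddCommGroup E] [InnerProductSpace ℝ E]

lemma parseval [FiniteDimensional ℝ E] {ι : Type} [Fintype ι] [Nonempty ι] [DecidableEq ι]
    (hc : Fintype.card ι = Module.finrank ℝ E) {u : ι → E} (h0 : ∀ i, u i ≠ 0)
    (h : ∀ i j, i ≠ j → ⟪u i, u j⟫ = 0) (x y : E) :
    ⟪x, y⟫ = ∑ i, ⟪x, u i⟫ * ⟪u i, y⟫ / ‖u i‖ ^ 2 := by
  have o : Orthonormal ℝ fun i => ‖u i‖⁻¹ • u i :=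
    ⟨fun i => norm_smul_inv_norm (h0 i), fun i j e => by
      simp [inner_smul_left, inner_smul_right, h i j e]⟩
  rw [← ((basisOfOrthonormalOfCardEqFinrank o hc).toOrthonormalBasis (by simpa using o)
    ).sum_inner_mul_inner x y]
  refine Finset.sum_congr rfl fun i _ => ?_
  simp only [Module.Basis.coe_toOrthonormalBasis, coe_basisOfOrthonormalOfCardEqFinrank,
    real_inner_smul_left, real_inner_smul_right]
  field_simp

lemma equi {a b x : E} (h : dist a x = 1) (h' : dist b x = 1) : ⟪a - b, a + b - x - x⟫ = 0 := by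
  rw [dist_eq_norm] at h h'
  rw [show a - b = (a - x) - (b - x) by abel, show a + b - x - x = (a - x) + (b - x) by abel,
    inner_sub_left, inner_add_right, inner_add_right, real_inner_self_eq_norm_sq,
    real_inner_self_eq_norm_sq, h, h', real_inner_comm]
  ring

lemma orth {p q : Bool → E} (h : ∀ σ τ, dist (p σ) (q τ) = 1) :
    ⟪p false - p true, q false - q true⟫ = 0 ∧
      ⟪p false - p true, (p false + p true) - (q false + q true)⟫ = 0 := by
  have h1 := equi (h false false) (h true false)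
  have h2 := equi (h false true) (h true true)
  simp only [inner_sub_right, inner_add_right] at *
  constructor <;> linarith

lemma cross [FiniteDimensional ℝ E] {m : ℕ} (hc : 3 + m = Module.finrank ℝ E)
    {p : Fin 3 ⊕ Fin m → Bool → E} (h0 : ∀ i, p i false - p i true ≠ 0)
    (h : ∀ i j, i ≠ j → ∀ σ τ, dist (p i σ) (p j τ) = 1) :
    (∀ i j, p i false + p i true = p j false + p j true) ∧
      ∀ k, ‖p (.inl k) false - p (.inl k) true‖ ^ 2 = 2 := by
  have c : ∀ i j, p i false + p i true = p j false + p j true := fun i j => by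
    rw [← sub_eq_zero, ← inner_self_eq_zero (𝕜 := ℝ),
      parseval (by simpa using hc) h0 fun i j e => (orth (h i j e)).1]
    refine Finset.sum_eq_zero fun k _ => ?_
    have : ∀ i, ⟪p k false - p k true, (p k false + p k true) - (p i false + p i true)⟫ = 0 :=
      fun i => by
        by_cases e : k = i
        · simp [e]
        · exact (orth (h k i e)).2
    have h1 := this i
    have h2 := this j
    rw [show ⟪p k false - p k true, p i false + p i true - (p j false + p j true)⟫ = 0 by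
      simp only [inner_sub_right] at *; linarith]
    simp
  have s : ∀ i j, i ≠ j → ‖p i false - p i true‖ ^ 2 + ‖p j false - p j true‖ ^ 2 = 4 := by
    intro i j e
    have h1 := norm_sub_sq_real (p i false - p i true) (p j false - p j true)
    have h2 := h i j e false false
    rw [(orth (h i j e)).1, show p i false - p i true - (p j false - p j true) =
      (2 : ℝ) • (p i false - p j false) by
        linear_combination (norm := module) -c i j, norm_smul, ← dist_eq_norm, h2] at h1
    norm_num at h1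
    linarith
  have s1 := s (.inl 0) (.inl 1) (by simp)
  have s2 := s (.inl 0) (.inl 2) (by simp)
  have s3 := s (.inl 1) (.inl 2) (by simp)
  refine ⟨c, fun k => ?_⟩
  fin_cases k <;> simp only [Fin.zero_eta, Fin.mk_one, Fin.reduceFinMk] <;> linarith

end

def R (A : List (List Bool)) (i j : ℕ) : Prop := i ≠ j ∧ (A.length ≤ i ∨ A.length ≤ j ∨ Entry A i j)

def Emb (m : ℕ) (A : List (List Bool)) : Prop :=
  ∃ p : ℕ → Bool → EuclideanSpace ℝ (Fin (3 + m)),
    (∀ i < A.length + m, ∀ j < A.length + m, ∀ σ τ, p i σ = p j τ → i = j ∧ σ = τ) ∧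
    ∀ i < A.length + m, ∀ j < A.length + m, R A i j → ∀ σ τ, dist (p i σ) (p j τ) = 1

lemma adj_iff {A} (h : IsGraph A) (i j : Fin A.length) : (graphOf A).Adj i j ↔ R A i j := by
  have := h.2.2 j i
  have := i.2
  have := j.2
  simp only [graphOf, SimpleGraph.fromRel_adj, R, ne_eq, Fin.ext_iff]
  grind

lemma emb_of {m A} (hA : IsGraph A) (h : ORep (graphOf A)) : Emb m A := by
  obtain ⟨φ, h1, h2, h3⟩ := h
  let ψ : ℕ → V3 := fun i => if h : i < A.length then φ ⟨i, h⟩ else 0
  let w : ℕ → EuclideanSpace ℝ (Fin (3 + m)) := fun i =>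
    WithLp.toLp 2 (Fin.append (ψ i) fun k => if i = A.length + k then 1 else 0)
  have w1 : ∀ i < A.length + m, ∀ j, i ≠ j → ∀ t : ℝ, w i ≠ t • w j := fun i hi j ij t e => by
    by_cases h : i < A.length
    · have : ψ i = t • ψ j := funext fun k => by
        simpa [w] using congrArg (fun x => x (Fin.castAdd m k)) e
      by_cases h' : j < A.length
      · simp only [ψ, h, h', dif_pos] at this
        exact h2 ⟨i, h⟩ ⟨j, h'⟩ (by simpa using ij) ((par_iff (h1 _)).2 ⟨t, this⟩)
      · exact h1 ⟨i, h⟩ (by simpa [ψ, h, h'] using this)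
    · have := congrArg (fun x => x (Fin.natAdd 3 ⟨i - A.length, by omega⟩)) e
      simp only [w, PiLp.smul_apply, Fin.append_right, show A.length + (i - A.length) = i by omega]
        at this
      simp [ij.symm] at this
  have w0 : ∀ i < A.length + m, w i ≠ 0 := fun i hi => by
    simpa using w1 i hi (i + 1) (by omega) 0
  have w2 : ∀ i j, R A i j → ⟪w i, w j⟫ = 0 := fun i j r => by
    have : ip (ψ j) (ψ i) = 0 := by
      by_cases h : i < A.length
      · by_cases h' : j < A.length
        · simpa [ψ, h, h', ip_comm] using h3 ⟨i, h⟩ ⟨j, h'⟩ ((adj_iff hA _ _).2 r)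
        · simp [ψ, h', ip]
      · simp [ψ, h, ip]
    simp only [w, PiLp.inner_apply, Fin.sum_univ_add, Fin.append_left, Fin.append_right,
      Fin.sum_univ_three, RCLike.inner_apply, conj_trivial]
    rw [Finset.sum_eq_zero fun k _ => by have := r.1; split_ifs <;> first | omega | simp, add_zero]
    exact this
  let c : ℕ → Bool → ℝ := fun i σ => (bif σ then -1 else 1) * (√2 * ‖w i‖)⁻¹
  have c0 : ∀ i < A.length + m, ∀ σ, c i σ ≠ 0 := fun i hi σ => by
    cases σ <;> simp [c, w0 i hi]
  have c1 : ∀ i < A.length + m, ∀ σ, ‖c i σ • w i‖ ^ 2 = 1 / 2 := fun i hi σ => by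
    have := norm_ne_zero_iff.2 (w0 i hi)
    rw [norm_smul, mul_pow, Real.norm_eq_abs, sq_abs]
    cases σ <;> simp [c, mul_pow] <;> field_simp
  refine ⟨fun i σ => c i σ • w i, fun i hi j hj σ τ (e : c i σ • w i = c j τ • w j) => ?_,
    fun i hi j hj r σ τ => ?_⟩
  · obtain rfl : i = j := by_contra fun ij => w1 i hi j ij ((c i σ)⁻¹ * c j τ) (by
      rw [mul_smul, ← e, smul_smul, inv_mul_cancel₀ (c0 i hi σ), one_smul])
    refine ⟨rfl, ?_⟩
    have e' := smul_left_injective ℝ (w0 i hi) e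
    have := c0 i hi false
    cases σ <;> cases τ <;> simp only [c, cond_true, cond_false] at e' this ⊢ <;>
      exact (this (by linarith)).elim
  · rw [dist_eq_norm, ← sq_eq_sq₀ (norm_nonneg _) zero_le_one, norm_sub_sq_real, c1 i hi, c1 j hj,
      real_inner_smul_left, real_inner_smul_right, w2 i j r]
    norm_num

def ix (m : ℕ) {n : ℕ} (t : Fin 3 → Fin n) : Fin 3 ⊕ Fin m → ℕ := Sum.elim (fun k => t k) fun k => n + k

lemma il {m n : ℕ} (t : Fin 3 → Fin n) : ∀ i, ix m t i < n + m := by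
  rintro (k | k)
  · have := (t k).2; simp only [ix, Sum.elim_inl]; omega
  · simp [ix]

lemma ir {m A} (hA : IsGraph A) (u v w) (a : (graphOf A).Adj u v) (b : (graphOf A).Adj u w)
    (c : (graphOf A).Adj v w) : ∀ i j, i ≠ j → R A (ix m ![u, v, w] i) (ix m ![u, v, w] j) := by
  rintro (i | i) (j | j) e
  · refine (adj_iff hA _ _).1 ?_
    fin_cases i <;> fin_cases j <;> first | exact (e rfl).elim | assumption | (symm; assumption)
  · have := (![u, v, w] i).2
    simp only [ix, Sum.elim_inl, Sum.elim_inr, R]; omega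
  · have := (![u, v, w] j).2
    simp only [ix, Sum.elim_inl, Sum.elim_inr, R]; omega
  · have : i.1 ≠ j.1 := fun h => e (by rw [Fin.ext h])
    simp only [ix, Sum.elim_inr, R]; omega

lemma of_emb {E : Type} [NormedAddCommGroup E] [InnerProductSpace ℝ E] [FiniteDimensional ℝ E]
    {m A} (hc : 3 + m = Module.finrank ℝ E) (hA : IsGraph A) (T : TriC (graphOf A))
    {p : ℕ → Bool → E}
    (h1 : ∀ i < A.length + m, ∀ j < A.length + m, ∀ σ τ, p i σ = p j τ → i = j ∧ σ = τ)
    (h2 : ∀ i < A.length + m, ∀ j < A.length + m, R A i j → ∀ σ τ, dist (p i σ) (p j τ) = 1) :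
    ORep (graphOf A) := by
  obtain ⟨⟨o⟩, T1, T2⟩ := T
  have n0 : ∀ i < A.length + m, p i false - p i true ≠ 0 := fun i hi e => by
    simpa using h1 i hi i hi _ _ (sub_eq_zero.1 e)
  have cr' := fun u v w a b c => cross hc (p := fun i => p (ix m ![u, v, w] i))
    (fun i => n0 _ (il _ i)) fun i j e => h2 _ (il _ i) _ (il _ j) (ir hA u v w a b c i j e)
  have ce := T2 _ (fun u => p u false + p u true) fun u v w a b c =>
    (cr' u v w a b c).1 (.inl 0) (.inl 1)
  have nn : ∀ u : Fin A.length, ‖p u false - p u true‖ ^ 2 = 2 := fun u =>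
    let ⟨v, w, a, b, c⟩ := T1 u; (cr' u v w a b c).2 0
  obtain ⟨o1, o2, a, b, c⟩ := T1 o
  let φ : Fin A.length → E := fun u => p u false - p u true
  let ψ : Fin A.length → V3 := fun u k => ⟪φ u, φ (![o, o1, o2] k)⟫
  have lt : ∀ u : Fin A.length, u.1 < A.length + m := fun u => by omega
  have key : ∀ x y, ip (ψ x) (ψ y) = 2 * ⟪φ x, φ y⟫ := fun x y => by
    rw [parseval (ι := Fin 3 ⊕ Fin m) (by simpa using hc) (fun i => n0 _ (il ![o, o1, o2] i))
      (fun i j e => (orth (h2 _ (il _ i) _ (il _ j) (ir hA _ _ _ a b c i j e))).1) (φ x) (φ y),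
      Fintype.sum_sum_type, Finset.sum_eq_zero (s := Finset.univ (α := Fin m)) fun k _ => by
        rw [(orth (h2 _ (lt x) _ (il _ (.inr k)) ⟨by simp only [ix, Sum.elim_inr]; omega,
          .inr (.inl (by simp [ix]))⟩)).1]; simp]
    simp only [ix, Sum.elim_inl, nn, Fin.sum_univ_three, ip, ψ, φ, real_inner_comm]
    ring
  have k1 : ∀ x, ip (ψ x) (ψ x) = 4 := fun x => by
    rw [key, real_inner_self_eq_norm_sq, nn]; norm_num
  have z : ∀ x, ψ x ≠ 0 := fun x e => by simpa [e, ip] using k1 x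
  refine ⟨ψ, z, fun x y xy e => ?_, fun x y e => ?_⟩
  · obtain ⟨t, ht⟩ := (par_iff (z y)).1 e
    have e1 := k1 x
    have e2 := k1 y
    have e3 := key x y
    simp only [ht, ip, Pi.smul_apply, smul_eq_mul] at e1 e2 e3
    have t2 : (t - 1) * (t + 1) = 0 := by linear_combination e1 / 4 - t ^ 2 * e2 / 4
    have e4 : φ x = t • φ y := by
      rw [← sub_eq_zero, ← norm_eq_zero, ← sq_eq_zero_iff, norm_sub_sq_real, norm_smul, mul_pow,
        Real.norm_eq_abs, sq_abs, real_inner_smul_right, nn, nn]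
      linear_combination t * e3 - t ^ 2 * e2 - 2 * t2
    have e5 := ce x y
    simp only [φ] at e4
    rcases mul_eq_zero.1 t2 with h | h
    · refine xy (Fin.ext (h1 _ (lt x) _ (lt y) false false ?_).1)
      rw [show t = 1 by linarith] at e4
      linear_combination (norm := module) (1 / 2 : ℝ) • e4 + (1 / 2 : ℝ) • e5
    · refine xy (Fin.ext (h1 _ (lt x) _ (lt y) false true ?_).1)
      rw [show t = -1 by linarith] at e4
      linear_combination (norm := module) (1 / 2 : ℝ) • e4 + (1 / 2 : ℝ) • e5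
  · rw [key, (orth (h2 _ (lt x) _ (lt y) ((adj_iff hA _ _).1 e))).1, mul_zero]

open Classical in
theorem result (d : ℕ) (hd : 3 ≤ d) :
    ERHard (Lang fun A : List (List Bool) => IsGraph A ∧ ∃ e ≤ d, Sub e (graphOf A)) := by
  obtain ⟨m, rfl⟩ := Nat.exists_eq_add_of_le hd
  obtain ⟨g, hg, h⟩ := rh_orth
  let vl : List (List Bool) → List (ℕ × Bool) := fun A => List.range (A.length + m) ×ˢ [false, true]
  let r : List (List Bool) → ℕ × Bool → ℕ × Bool → Bool := fun A u v => decide (R A u.1 v.1)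
  have hr : PT fun A => gmat (vl A) (r A) :=
    PT.gmat (by fun_prop) (PP.decide (by unfold R Entry; fun_prop))
  refine RH.erHard ⟨fun s => gmat (vl (g s)) (r (g s)), hr.comp hg, fun s => (h s).2.2.trans ?_⟩
  obtain ⟨hA, T, -⟩ := h s
  beta_reduce
  generalize g s = A at *
  have e := gmatIso (vl A) (r A) (List.nodup_range.product (by simp))
  have mem : ∀ i σ, (i, σ) ∈ vl A ↔ i < A.length + m := fun i σ => by cases σ <;> simp [vl]
  refine ⟨fun k => ⟨isGraph_gmat _ _, _, le_rfl, Sub.iso e ?_⟩,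
    fun ⟨_, d, hd, k⟩ => ?_⟩
  · obtain ⟨p, h1, h2⟩ := emb_of (m := m) hA k
    refine ⟨fun v => p v.1.1 v.1.2, fun u v e => Subtype.ext (Prod.ext_iff.2
      (h1 _ ((mem _ _).1 u.2) _ ((mem _ _).1 v.2) _ _ e)), fun u v a => ?_⟩
    rcases ((listGraph_adj _ _ _ _).1 a).2 with a | a
    · exact h2 _ ((mem _ _).1 u.2) _ ((mem _ _).1 v.2) (of_decide_eq_true a) _ _
    · rw [dist_comm]
      exact h2 _ ((mem _ _).1 v.2) _ ((mem _ _).1 u.2) (of_decide_eq_true a) _ _
  · obtain ⟨p, h1, h2⟩ := (k.mono hd).iso e.symm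
    refine of_emb (m := m) (by simp) hA T
      (p := fun i σ => if h : i < A.length + m then p ⟨(i, σ), (mem _ _).2 h⟩ else 0)
      (fun i hi j hj σ τ e => ?_) fun i hi j hj a σ τ => ?_
    all_goals simp only [hi, hj, dif_pos] at *
    · simpa using h1 e
    · exact h2 _ _ ((listGraph_adj _ _ _ _).2 ⟨by simp [a.1], .inl (decide_eq_true a)⟩)

end Pool.Agent.Results.MP_0f8b55_lc.EDim
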